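import Pool.Agent.Lib.MP_73c19a_an.Final3

/-!
# Infinite-dimensional invariant tori with polynomially decaying actions

For every dimension `d ≥ 1` and every `M > 7 d`, KAM tori exist near the actions
`I⁰_j = c (1 + |j|)^(-M)`, for every norm `|·|` on `ℝ^d`, all `r, s, m > 0`, all `C`, all
`0 < c < 2 r` and all interactions of the class. (For `c ≥ 2 r` the condition
`|I_0 - I⁰_0| ≤ I⁰_0 / 2` leaves the domain `|I_0| < r`.)
-/

set_option autoImplicit false

namespace Pool.Agent.Results.MP_73c19a_an.PolynomialTori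

open KamLattice

theorem result (d : ℕ) (hd : 1 ≤ d) (M : ℝ) (hM : 7 * (d : ℝ) < M) (N : (Fin d → ℝ) → ℝ)
    (hN : IsNorm N) (r s C m c : ℝ) (hr : 0 < r) (hs : 0 < s) (hm : 0 < m) (hc : 0 < c)
    (hcr : c < 2 * r) (f : Site d → Site d → ℂ × ℂ × ℂ × ℂ → ℂ) (hf : IsInteraction N r s C m f) :
    KamToriNear f r fun j => c * (1 + N (iv j)) ^ (-M) :=
  KX.main_tori d hd M hM N hN r s C m c hr hs hm hc hcr f hf

end Pool.Agent.Results.MP_73c19a_an.PolynomialTori
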